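import Pool.Agent.Lib.MP_bfaad3_co.Minor

/-! The square grid as a hypermap of genus zero, and its minors. -/

set_option autoImplicit false

namespace Pool.Agent.Lib.TopPl

open Equiv Pool.Agent.Lib.MP_bfaad3_co

theorem card_le_cyc {D T : Type*} [Finite D] (π : Perm D) (β : D → T) (hβ : ∀ d, β (π d) = β d)
    (S : Finset T) (hS : ∀ t ∈ S, ∃ d, β d = t) : S.card ≤ cyc π := by
  classical
  choose g hg using hS
  rw [← Fintype.card_coe, ← Nat.card_eq_fintype_card]
  refine Nat.card_le_card_of_injective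
    (fun t : S => Quotient.mk (Perm.SameCycle.setoid π) (g t.1 t.2)) (fun t t' h => ?_)
  have h1 := min_lab' π β hβ (Quotient.exact h)
  rw [hg, hg] at h1
  exact Subtype.ext h1.symm

/-- darts of the grid -/
abbrev GD (n : ℕ) : Type := Fin n × Fin n × Fin 4

/-- rotation about a grid vertex -/
def gs (n : ℕ) : Perm (GD n) :=
  Equiv.prodCongr (Equiv.refl _) (Equiv.prodCongr (Equiv.refl _) (Equiv.addRight 1))

theorem gs_apply {n : ℕ} (x y : Fin n) (k : Fin 4) : gs n (x, y, k) = (x, y, k + 1) := rfl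

/-- reversal of the darts of the grid; darts leaving the grid are fixed -/
def gaf {n : ℕ} (d : GD n) : GD n :=
  if d.2.2 = 0 then (if h : d.1.1 + 1 < n then (⟨d.1.1 + 1, h⟩, d.2.1, 2) else d)
  else if d.2.2 = 1 then (if h : d.2.1.1 + 1 < n then (d.1, ⟨d.2.1.1 + 1, h⟩, 3) else d)
  else if d.2.2 = 2 then
    (if 0 < d.1.1 then (⟨d.1.1 - 1, lt_of_le_of_lt (Nat.sub_le _ _) d.1.2⟩, d.2.1, 0) else d)
  else (if 0 < d.2.1.1 then (d.1, ⟨d.2.1.1 - 1, lt_of_le_of_lt (Nat.sub_le _ _) d.2.1.2⟩, 1) else d)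

theorem gaf0 {n : ℕ} (x y : Fin n) :
    gaf (x, y, 0) = if h : x.1 + 1 < n then (⟨x.1 + 1, h⟩, y, 2) else (x, y, 0) := rfl

theorem gaf1 {n : ℕ} (x y : Fin n) :
    gaf (x, y, 1) = if h : y.1 + 1 < n then (x, ⟨y.1 + 1, h⟩, 3) else (x, y, 1) := rfl

theorem gaf2 {n : ℕ} (x y : Fin n) :
    gaf (x, y, 2) = if 0 < x.1 then (⟨x.1 - 1, lt_of_le_of_lt (Nat.sub_le _ _) x.2⟩, y, 0)
      else (x, y, 2) := rfl

theorem gaf3 {n : ℕ} (x y : Fin n) :
    gaf (x, y, 3) = if 0 < y.1 then (x, ⟨y.1 - 1, lt_of_le_of_lt (Nat.sub_le _ _) y.2⟩, 1)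
      else (x, y, 3) := rfl

theorem fin4 (k : Fin 4) : k = 0 ∨ k = 1 ∨ k = 2 ∨ k = 3 := by
  revert k
  decide

theorem gaf_inv {n : ℕ} : Function.Involutive (gaf (n := n)) := by
  rintro ⟨x, y, k⟩
  rcases fin4 k with rfl | rfl | rfl | rfl
  · rw [gaf0]
    split_ifs with h
    · rw [gaf2, if_pos (Nat.succ_pos _)]
      rfl
    · rw [gaf0, dif_neg h]
  · rw [gaf1]
    split_ifs with h
    · rw [gaf3, if_pos (Nat.succ_pos _)]
      rfl
    · rw [gaf1, dif_neg h]
  · rw [gaf2]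
    split_ifs with h
    · have e : x.1 - 1 + 1 = x.1 := Nat.sub_add_cancel h
      rw [gaf0, dif_pos (by simp only [e]; exact x.2)]
      simp only [e]
    · rw [gaf2, if_neg h]
  · rw [gaf3]
    split_ifs with h
    · have e : y.1 - 1 + 1 = y.1 := Nat.sub_add_cancel h
      rw [gaf1, dif_pos (by simp only [e]; exact y.2)]
      simp only [e]
    · rw [gaf3, if_neg h]

/-- reversal as a permutation -/
def ga (n : ℕ) : Perm (GD n) := Function.Involutive.toPerm gaf gaf_inv

theorem ga_apply {n : ℕ} (d : GD n) : ga n d = gaf d := rfl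

/-- label of the edge of a dart -/
def eLab {n : ℕ} (d : GD n) : Bool × ℕ × ℕ :=
  if d.2.2 = 0 then (true, d.1.1 + 1, d.2.1.1)
  else if d.2.2 = 1 then (false, d.2.1.1 + 1, d.1.1)
  else if d.2.2 = 2 then (true, d.1.1, d.2.1.1) else (false, d.2.1.1, d.1.1)

/-- the cell to the right of a dart -/
def cell {n : ℕ} (d : GD n) : ℕ × ℕ :=
  if d.2.2 = 0 then (d.1.1 + 1, d.2.1.1)
  else if d.2.2 = 1 then (d.1.1 + 1, d.2.1.1 + 1)
  else if d.2.2 = 2 then (d.1.1, d.2.1.1 + 1) else (d.1.1, d.2.1.1)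

/-- all outer cells are identified -/
def inn (n : ℕ) (c : ℕ × ℕ) : ℕ × ℕ :=
  if 0 < c.1 ∧ c.1 < n ∧ 0 < c.2 ∧ c.2 < n then c else (0, 0)

theorem eLab_ga {n : ℕ} (d : GD n) : eLab (ga n d) = eLab d := by
  obtain ⟨x, y, k⟩ := d
  rw [ga_apply]
  rcases fin4 k with rfl | rfl | rfl | rfl
  · rw [gaf0]
    split_ifs with h <;> rfl
  · rw [gaf1]
    split_ifs with h <;> rfl
  · rw [gaf2]
    split_ifs with h
    · change (true, x.1 - 1 + 1, y.1) = (true, x.1, y.1)
      rw [Nat.sub_add_cancel h]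
    · rfl
  · rw [gaf3]
    split_ifs with h
    · change (false, y.1 - 1 + 1, x.1) = (false, y.1, x.1)
      rw [Nat.sub_add_cancel h]
    · rfl

theorem cell_face {n : ℕ} (d : GD n) : inn n (cell ((gs n * ga n) d)) = inn n (cell d) := by
  obtain ⟨x, y, k⟩ := d
  rw [Perm.mul_apply, ga_apply]
  have hx := x.2
  have hy := y.2
  rcases fin4 k with rfl | rfl | rfl | rfl
  · rw [gaf0]
    split_ifs with h
    · rfl
    · change inn n (x.1 + 1, y.1 + 1) = inn n (x.1 + 1, y.1)
      unfold inn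
      rw [if_neg (fun c => h c.2.1), if_neg (fun c => h c.2.1)]
  · rw [gaf1]
    split_ifs with h
    · rfl
    · change inn n (x.1, y.1 + 1) = inn n (x.1 + 1, y.1 + 1)
      unfold inn
      rw [if_neg (fun c => h c.2.2.2), if_neg (fun c => h c.2.2.2)]
  · rw [gaf2]
    split_ifs with h
    · change inn n (x.1 - 1 + 1, y.1 + 1) = inn n (x.1, y.1 + 1)
      rw [Nat.sub_add_cancel h]
    · change inn n (x.1, y.1) = inn n (x.1, y.1 + 1)
      unfold inn
      rw [if_neg (fun c => h c.1), if_neg (fun c => h c.1)]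
  · rw [gaf3]
    split_ifs with h
    · change inn n (x.1, y.1 - 1 + 1) = inn n (x.1, y.1)
      rw [Nat.sub_add_cancel h]
    · change inn n (x.1 + 1, y.1) = inn n (x.1, y.1)
      unfold inn
      rw [if_neg (fun c => h c.2.2.1), if_neg (fun c => h c.2.2.1)]

/-- neighbours in the grid -/
def adj {n : ℕ} (z w : Fin n × Fin n) : Prop :=
  (z.1.1 + 1 = w.1.1 ∧ z.2 = w.2) ∨ (z.1 = w.1 ∧ z.2.1 + 1 = w.2.1) ∨
    (w.1.1 + 1 = z.1.1 ∧ z.2 = w.2) ∨ (z.1 = w.1 ∧ w.2.1 + 1 = z.2.1)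

theorem adj_dart {n : ℕ} {z w : Fin n × Fin n} (h : adj z w) :
    ∃ k k' : Fin 4, ga n (z.1, z.2, k) = (w.1, w.2, k') := by
  obtain ⟨x, y⟩ := z
  obtain ⟨x', y'⟩ := w
  rcases h with ⟨h, e⟩ | ⟨e, h⟩ | ⟨h, e⟩ | ⟨e, h⟩
  · dsimp only at h e
    subst e
    refine ⟨0, 2, ?_⟩
    rw [ga_apply, gaf0, dif_pos (by rw [h]; exact x'.2)]
    simp only [h]
  · dsimp only at h e
    subst e
    refine ⟨1, 3, ?_⟩
    rw [ga_apply, gaf1, dif_pos (by rw [h]; exact y'.2)]
    simp only [h]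
  · dsimp only at h e
    subst e
    refine ⟨2, 0, ?_⟩
    have e : x.1 - 1 = x'.1 := by omega
    have e' : 0 < x.1 := by omega
    rw [ga_apply, gaf2, if_pos e']
    simp only [e]
  · dsimp only at h e
    subst e
    refine ⟨3, 1, ?_⟩
    have e : y.1 - 1 = y'.1 := by omega
    have e' : 0 < y.1 := by omega
    rw [ga_apply, gaf3, if_pos e']
    simp only [e]

theorem gs_cycle {n : ℕ} (x y : Fin n) (k k' : Fin 4) :
    (gs n).SameCycle (x, y, k) (x, y, k') := by
  have h : ∀ j : Fin 4, (gs n).SameCycle (x, y, j) (x, y, j + 1) := fun j => ⟨1, rfl⟩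
  have h0 : ∀ j : Fin 4, (gs n).SameCycle (x, y, 0) (x, y, j) := by
    intro j
    rcases fin4 j with rfl | rfl | rfl | rfl
    · exact Perm.SameCycle.refl _ _
    · exact h 0
    · exact (h 0).trans (h 1)
    · exact ((h 0).trans (h 1)).trans (h 2)
  exact (h0 k).symm.trans (h0 k')

theorem conn_adj {n : ℕ} {z w : Fin n × Fin n} (h : adj z w) (k k' : Fin 4) :
    conn (gs n) (ga n) (z.1, z.2, k) (w.1, w.2, k') := by
  obtain ⟨j, j', e⟩ := adj_dart h
  have h1 := perm_sc_le (perm_conn_a (gs n) (ga n)) (gs_cycle z.1 z.2 k j)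
  have h2 := perm_conn_b (gs n) (ga n) (z.1, z.2, j)
  rw [e] at h2
  have h3 := perm_sc_le (perm_conn_a (gs n) (ga n)) (gs_cycle w.1 w.2 j' k')
  exact (conn _ _).trans' ((conn _ _).trans' h1 h2) h3

theorem comp_grid (m : ℕ) : comp (gs (m + 1)) (ga (m + 1)) ≤ 1 := by
  have h1 : ∀ (i : ℕ) (hi : i < m + 1),
      conn (gs (m + 1)) (ga (m + 1)) (0, 0, 0) (⟨i, hi⟩, 0, 0) := by
    intro i
    induction i with
    | zero => exact fun _ => (conn _ _).refl' _
    | succ i ih =>
      intro hi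
      exact (conn _ _).trans' (ih (by omega))
        (conn_adj (z := (⟨i, by omega⟩, 0)) (w := (⟨i + 1, hi⟩, 0)) (Or.inl ⟨rfl, rfl⟩) 0 0)
  have h2 : ∀ (x : Fin (m + 1)) (i : ℕ) (hi : i < m + 1),
      conn (gs (m + 1)) (ga (m + 1)) (x, 0, 0) (x, ⟨i, hi⟩, 0) := by
    intro x i
    induction i with
    | zero => exact fun _ => (conn _ _).refl' _
    | succ i ih =>
      intro hi
      exact (conn _ _).trans' (ih (by omega))
        (conn_adj (z := (x, ⟨i, by omega⟩)) (w := (x, ⟨i + 1, hi⟩))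
          (Or.inr (Or.inl ⟨rfl, rfl⟩)) 0 0)
  have h3 : ∀ d : GD (m + 1), conn (gs (m + 1)) (ga (m + 1)) (0, 0, 0) d := by
    rintro ⟨x, y, k⟩
    exact (conn _ _).trans' ((conn _ _).trans' (h1 x.1 x.2) (h2 x y.1 y.2))
      (perm_sc_le (perm_conn_a (gs _) (ga _)) (gs_cycle x y 0 k))
  have : Subsingleton (Quotient (conn (gs (m + 1)) (ga (m + 1)))) := ⟨fun a b => by
    obtain ⟨a, rfl⟩ := Quotient.exists_rep a
    obtain ⟨b, rfl⟩ := Quotient.exists_rep b
    exact Quotient.sound ((conn _ _).trans' ((conn _ _).symm' (h3 a)) (h3 b))⟩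
  exact Finite.card_le_one_iff_subsingleton.2 this

theorem gen0_grid (m : ℕ) : Gen0 (gs (m + 1)) (ga (m + 1)) := by
  classical
  have h0 : Nat.card (GD (m + 1)) = (m + 1) * ((m + 1) * 4) := by simp
  have h1 := card_le_cyc (gs (m + 1)) (fun d => (d.1, d.2.1)) (fun _ => rfl) Finset.univ
    (fun t _ => ⟨(t.1, t.2, 0), rfl⟩)
  have h2 := card_le_cyc (ga (m + 1)) eLab eLab_ga
    (Finset.univ ×ˢ Finset.range (m + 2) ×ˢ Finset.range (m + 1)) (by
      rintro ⟨b, i, j⟩ h
      simp only [Finset.mem_product, Finset.mem_univ, Finset.mem_range, true_and] at h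
      obtain ⟨hi, hj⟩ := h
      by_cases c : i < m + 1
      · cases b
        · exact ⟨(⟨j, hj⟩, ⟨i, c⟩, 3), rfl⟩
        · exact ⟨(⟨i, c⟩, ⟨j, hj⟩, 2), rfl⟩
      · obtain rfl : i = m + 1 := by omega
        cases b
        · exact ⟨(⟨j, hj⟩, ⟨m, by omega⟩, 1), rfl⟩
        · exact ⟨(⟨m, by omega⟩, ⟨j, hj⟩, 0), rfl⟩)
  have h3 := card_le_cyc (gs (m + 1) * ga (m + 1)) (fun d => inn (m + 1) (cell d)) cell_face
    (insert (0, 0) (Finset.Ioc 0 m ×ˢ Finset.Ioc 0 m)) (by
      rintro ⟨i, j⟩ h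
      simp only [Finset.mem_insert, Finset.mem_product, Finset.mem_Ioc] at h
      rcases h with h | ⟨hi, hj⟩
      · refine ⟨(0, 0, 3), ?_⟩
        rw [h]
        change inn (m + 1) (0, 0) = (0, 0)
        unfold inn
        split_ifs <;> rfl
      · refine ⟨(⟨i, by omega⟩, ⟨j, by omega⟩, 3), ?_⟩
        change inn (m + 1) (i, j) = (i, j)
        unfold inn
        rw [if_pos ⟨hi.1, by dsimp only; omega, hj.1, by dsimp only; omega⟩])
  rw [Finset.card_insert_of_notMem (by simp)] at h3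
  simp only [Finset.card_product, Finset.card_univ, Fintype.card_prod, Fintype.card_fin,
    Finset.card_range, Fintype.card_bool, Nat.card_Ioc, Nat.sub_zero] at h1 h2 h3
  have h4 := comp_grid m
  unfold Gen0
  rw [h0]
  nlinarith

theorem grid_minor {V : Type*} [Fintype V] (m : ℕ) (β : Fin (m + 1) × Fin (m + 1) → Option V)
    (hc : ∀ z w v, β z = some v → β w = some v →
      Relation.EqvGen (fun x y => β x = some v ∧ β y = some v ∧ adj x y) z w)
    (H : SimpleGraph V)
    (hH : ∀ u v, H.Adj u v → ∃ z w, adj z w ∧ β z = some u ∧ β w = some v) : Pl H := by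
  refine minor (gs (m + 1)) (ga (m + 1)) gaf_inv (gen0_grid m) (fun d => β (d.1, d.2.1))
    (fun _ => rfl) (fun d e v hd he => ?_) H (fun u v huv => ?_)
  · have key : ∀ z w, Relation.EqvGen (fun x y => β x = some v ∧ β y = some v ∧ adj x y) z w →
        z = w ∨ (β z = some v ∧ β w = some v ∧ ∀ k k' : Fin 4,
          Relation.EqvGen (fun x y : GD (m + 1) => β (x.1, x.2.1) = some v ∧
            β (y.1, y.2.1) = some v ∧ (y = gs (m + 1) x ∨ y = ga (m + 1) x))
            (z.1, z.2, k) (w.1, w.2, k')) := by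
      intro z w h
      induction h with
      | rel x y h =>
        obtain ⟨hx, hy, hxy⟩ := h
        refine Or.inr ⟨hx, hy, fun k k' => ?_⟩
        obtain ⟨j, j', e⟩ := adj_dart hxy
        refine Relation.EqvGen.trans _ _ _ (min_eqv (gs (m + 1)) (ga (m + 1))
          (fun d => β (d.1, d.2.1)) (fun _ => rfl) hx (gs_cycle x.1 x.2 k j))
          (Relation.EqvGen.trans _ (y.1, y.2, j') _
            (Relation.EqvGen.rel _ _ ⟨hx, hy, Or.inr e.symm⟩) ?_)
        exact min_eqv (gs (m + 1)) (ga (m + 1)) (fun d => β (d.1, d.2.1)) (fun _ => rfl) hy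
          (gs_cycle y.1 y.2 j' k')
      | refl x => exact Or.inl rfl
      | symm x y _ ih =>
        rcases ih with rfl | ⟨a, b, c⟩
        · exact Or.inl rfl
        · exact Or.inr ⟨b, a, fun k k' => (c k' k).symm _ _⟩
      | trans x y z _ _ ih1 ih2 =>
        rcases ih1 with rfl | ⟨a, b, c⟩
        · exact ih2
        · rcases ih2 with rfl | ⟨a', b', c'⟩
          · exact Or.inr ⟨a, b, c⟩
          · exact Or.inr ⟨a, b', fun k k' => (c k 0).trans _ _ _ (c' 0 k')⟩
    obtain ⟨x, y, k⟩ := d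
    obtain ⟨x', y', k'⟩ := e
    rcases key _ _ (hc (x, y) (x', y') v hd he) with h | ⟨-, -, h⟩
    · obtain ⟨rfl, rfl⟩ := Prod.mk.inj h
      exact min_eqv (gs (m + 1)) (ga (m + 1)) (fun d => β (d.1, d.2.1)) (fun _ => rfl) hd
        (gs_cycle x y k k')
    · exact h k k'
  · obtain ⟨z, w, h, hz, hw⟩ := hH u v huv
    obtain ⟨k, k', e⟩ := adj_dart h
    refine ⟨(z.1, z.2, k), hz, ?_⟩
    rw [e]
    exact hw

theorem isPlanar_of_pl {V : Type*} [Fintype V] {G : SimpleGraph V} (h : Pl G) : IsPlanar G := by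
  classical
  obtain ⟨σ, hr, h⟩ := h
  refine ⟨σ, hr, ?_⟩
  have h1 := min_edges_le G
  have h2 := min_verts_le hr
  have h3 := min_comp_le hr
  have h4 := min_card_dart G
  have h5 := euler_le σ (alpha G)
  have h6 : cyc (alpha G) ≤ Nat.card G.edgeSet := by
    have hl : ∀ d e : G.Dart, d.edge = e.edge → (alpha G).SameCycle d e := by
      intro d e hde
      rcases (SimpleGraph.dart_edge_eq_iff d e).1 hde with rfl | rfl
      · exact Perm.SameCycle.refl _ _
      · exact (perm_sc_step (alpha G) e).symm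
    let F : Quotient (Perm.SameCycle.setoid (alpha G)) → G.edgeSet :=
      Quotient.lift (fun d => ⟨d.edge, d.edge_mem⟩)
        (fun d e h => Subtype.ext (min_lab' (alpha G) (fun d => d.edge)
          (fun d => SimpleGraph.Dart.edge_symm d) h).symm)
    refine Nat.card_le_card_of_injective F (fun a b hab => ?_)
    obtain ⟨a, rfl⟩ := Quotient.exists_rep a
    obtain ⟨b, rfl⟩ := Quotient.exists_rep b
    exact Quotient.sound (hl a b (congrArg Subtype.val hab))
  have h7 : cyc σ + Nat.card {v : V // ∀ w, ¬ G.Adj v w} ≤ Nat.card V := by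
    let F : Quotient (Perm.SameCycle.setoid σ) → V :=
      Quotient.lift (fun d => d.fst)
        (fun d e h => (min_lab' σ (fun d : G.Dart => d.fst) hr.1 h).symm)
    rw [cyc, ← Nat.card_sum]
    refine Nat.card_le_card_of_injective (Sum.elim F Subtype.val) ?_
    rintro (x | x) (y | y) h
    · obtain ⟨a, rfl⟩ := Quotient.exists_rep x
      obtain ⟨b, rfl⟩ := Quotient.exists_rep y
      exact congrArg Sum.inl (Quotient.sound (hr.2 a b h))
    · obtain ⟨a, rfl⟩ := Quotient.exists_rep x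
      have e : a.fst = y.1 := h
      exact absurd (e ▸ a.adj) (y.2 a.snd)
    · obtain ⟨a, rfl⟩ := Quotient.exists_rep y
      have e : x.1 = a.fst := h
      exact absurd (e.symm ▸ a.adj) (x.2 a.snd)
    · exact congrArg Sum.inr (Subtype.ext h)
  have h8 : Nat.card G.ConnectedComponent ≤
      comp σ (alpha G) + Nat.card {v : V // ∀ w, ¬ G.Adj v w} := by
    have hF : ∀ d e : G.Dart, (conn σ (alpha G)).r d e →
        G.connectedComponentMk d.fst = G.connectedComponentMk e.fst := by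
      intro d e h
      refine perm_conn_le (s := Setoid.ker fun d : G.Dart => G.connectedComponentMk d.fst)
        (fun p => ?_) (fun p => ?_) h
      · change G.connectedComponentMk p.fst = G.connectedComponentMk (σ p).fst
        rw [hr.1]
      · exact SimpleGraph.ConnectedComponent.connectedComponentMk_eq_of_adj p.adj
    let F : Quotient (conn σ (alpha G)) → G.ConnectedComponent :=
      Quotient.lift (fun d => G.connectedComponentMk d.fst) hF
    rw [comp, ← Nat.card_sum]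
    refine Nat.card_le_card_of_surjective
      (Sum.elim F (fun v => G.connectedComponentMk v.1)) (fun c => ?_)
    obtain ⟨v, rfl⟩ := c.exists_rep
    by_cases h : ∀ w, ¬ G.Adj v w
    · exact ⟨Sum.inr ⟨v, h⟩, rfl⟩
    · push Not at h
      obtain ⟨w, hw⟩ := h
      exact ⟨Sum.inl (Quotient.mk _ ⟨(v, w), hw⟩), rfl⟩
  unfold Gen0 at h
  omega

end Pool.Agent.Lib.TopPl
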