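import Pool.Agent.Lib.TopPl.Defs
import Pool.Agent.Lib.TopPl.Grid

/-! A graph drawn in the plane is a minor of a fine grid, so it has a rotation system of genus
zero. -/

set_option autoImplicit false

namespace Pool.Agent.Lib.TopPl

open Equiv Pool.Agent.Lib.MP_bfaad3_co Set Relation Topology

section Near

variable {m : ℕ}

/-- a grid vertex close to a point of the plane -/
def near (q : ℝ × ℝ) (z : Fin (m + 1) × Fin (m + 1)) : Prop :=
  |q.1 - (z.1.1 : ℝ)| < 1 ∧ |q.2 - (z.2.1 : ℝ)| < 1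

/-- grid vertices close to a set -/
def NB (m : ℕ) (A : Set (ℝ × ℝ)) : Set (Fin (m + 1) × Fin (m + 1)) := {z | ∃ q ∈ A, near q z}

/-- the square covered by the grid -/
def box (m : ℕ) : Set (ℝ × ℝ) := {q | 0 ≤ q.1 ∧ q.1 ≤ m ∧ 0 ≤ q.2 ∧ q.2 ≤ m}

theorem near_one {t : ℝ} (h0 : 0 ≤ t) (h1 : t ≤ m) : ∃ x : Fin (m + 1), |t - (x.1 : ℝ)| < 1 := by
  refine ⟨⟨⌊t⌋₊, Nat.lt_succ_of_le (Nat.floor_le_of_le h1)⟩, ?_⟩
  have a := Nat.floor_le h0
  have b := Nat.lt_floor_add_one t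
  rw [abs_lt]
  constructor <;> dsimp only <;> linarith

theorem near_exists {q : ℝ × ℝ} (h : q ∈ box m) : ∃ z : Fin (m + 1) × Fin (m + 1), near q z := by
  obtain ⟨x, hx⟩ := near_one h.1 h.2.1
  obtain ⟨y, hy⟩ := near_one h.2.2.1 h.2.2.2
  exact ⟨(x, y), hx, hy⟩

theorem near_tri {t : ℝ} {x y : Fin (m + 1)} (hx : |t - (x.1 : ℝ)| < 1)
    (hy : |t - (y.1 : ℝ)| < 1) : x = y ∨ x.1 + 1 = y.1 ∨ y.1 + 1 = x.1 := by
  rw [abs_lt] at hx hy
  have a : (x.1 : ℝ) < (y.1 + 2 : ℕ) := by push_cast; linarith [hx.1, hy.2]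
  have b : (y.1 : ℝ) < (x.1 + 2 : ℕ) := by push_cast; linarith [hx.2, hy.1]
  have a' := Nat.cast_lt.1 a
  have b' := Nat.cast_lt.1 b
  rw [Fin.ext_iff]
  omega

theorem near_conn {A : Set (ℝ × ℝ)} {q : ℝ × ℝ} (hq : q ∈ A) {z w : Fin (m + 1) × Fin (m + 1)}
    (hz : near q z) (hw : near q w) : ReflTransGen (fun x y => adj x y ∧ y ∈ NB m A) z w := by
  have h1 : ReflTransGen (fun x y => adj x y ∧ y ∈ NB m A) z (w.1, z.2) := by
    have hn : (w.1, z.2) ∈ NB m A := ⟨q, hq, hw.1, hz.2⟩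
    rcases near_tri hz.1 hw.1 with h | h | h
    · rw [← h]
    · exact ReflTransGen.single ⟨Or.inl ⟨h, rfl⟩, hn⟩
    · exact ReflTransGen.single ⟨Or.inr (Or.inr (Or.inl ⟨h, rfl⟩)), hn⟩
  have h2 : ReflTransGen (fun x y => adj x y ∧ y ∈ NB m A) (w.1, z.2) w := by
    have hn : w ∈ NB m A := ⟨q, hq, hw⟩
    rcases near_tri hz.2 hw.2 with h | h | h
    · rw [h]
    · exact ReflTransGen.single ⟨Or.inr (Or.inl ⟨rfl, h⟩), hn⟩
    · exact ReflTransGen.single ⟨Or.inr (Or.inr (Or.inr ⟨rfl, h⟩)), hn⟩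
  exact h1.trans h2

theorem near_open (z : Fin (m + 1) × Fin (m + 1)) : IsOpen {q : ℝ × ℝ | near q z} := by
  have a : IsOpen {q : ℝ × ℝ | |q.1 - (z.1.1 : ℝ)| < 1} := isOpen_lt (by fun_prop) (by fun_prop)
  have b : IsOpen {q : ℝ × ℝ | |q.2 - (z.2.1 : ℝ)| < 1} := isOpen_lt (by fun_prop) (by fun_prop)
  exact a.inter b

theorem NB_conn {A : Set (ℝ × ℝ)} (hA : IsPreconnected A) (hb : A ⊆ box m)
    {z w : Fin (m + 1) × Fin (m + 1)} (hz : z ∈ NB m A) (hw : w ∈ NB m A) :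
    ReflTransGen (fun x y => adj x y ∧ y ∈ NB m A) z w := by
  obtain ⟨a, ha, hz⟩ := hz
  obtain ⟨b, hb', hw⟩ := hw
  refine hA.induction₂' (fun a b => ∀ z w, near a z → near b w →
    ReflTransGen (fun x y => adj x y ∧ y ∈ NB m A) z w) (fun x hx => ?_)
    (fun x y z _ hy _ h1 h2 u v hu hv => ?_) ha hb' z w hz hw
  · obtain ⟨c, hc⟩ := near_exists (hb hx)
    filter_upwards [mem_nhdsWithin_of_mem_nhds ((near_open c).mem_nhds hc),
      self_mem_nhdsWithin] with y hy hyA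
    exact ⟨fun u v hu hv => (near_conn hx hu hc).trans (near_conn hyA hy hv),
      fun u v hu hv => (near_conn hyA hu hy).trans (near_conn hx hc hv)⟩
  · obtain ⟨c, hc⟩ := near_exists (hb hy)
    exact (h1 u c hu hc).trans (h2 c v hc hv)

theorem near_dist {a b : ℝ × ℝ} {z : Fin (m + 1) × Fin (m + 1)} (ha : near a z) (hb : near b z) :
    dist a b < 2 := by
  obtain ⟨a1, a2⟩ := ha
  obtain ⟨b1, b2⟩ := hb
  rw [abs_lt] at a1 a2 b1 b2
  rw [Prod.dist_eq, max_lt_iff, Real.dist_eq, Real.dist_eq, abs_lt, abs_lt]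
  refine ⟨⟨?_, ?_⟩, ?_, ?_⟩ <;> linarith [a1.1, a1.2, a2.1, a2.2, b1.1, b1.2, b2.1, b2.2]

end Near

/-- the combinatorial part: vertex regions and edge regions in the grid -/
theorem pl_of_regions {V : Type*} [Fintype V] (G : SimpleGraph V) (m : ℕ)
    (B : V → Set (Fin (m + 1) × Fin (m + 1))) (N : Sym2 V → Set (Fin (m + 1) × Fin (m + 1)))
    (f1 f2 : Sym2 V → V) (hf : ∀ e, e = s(f1 e, f2 e))
    (hB : ∀ v, ∀ z ∈ B v, ∀ w ∈ B v, ReflTransGen (fun x y => adj x y ∧ y ∈ B v) z w)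
    (hN : ∀ e ∈ G.edgeSet, ∀ z ∈ N e, ∀ w ∈ N e, ReflTransGen (fun x y => adj x y ∧ y ∈ N e) z w)
    (hBB : ∀ u v z, z ∈ B u → z ∈ B v → u = v)
    (hBN : ∀ e ∈ G.edgeSet, ∀ v z, z ∈ B v → z ∈ N e → v = f1 e ∨ v = f2 e)
    (hNN : ∀ e ∈ G.edgeSet, ∀ f ∈ G.edgeSet, ∀ z, z ∈ N e → z ∈ N f → e = f)
    (h1 : ∀ e ∈ G.edgeSet, ∃ z, z ∈ B (f1 e) ∧ z ∈ N e)
    (h2 : ∀ e ∈ G.edgeSet, ∃ z, z ∈ B (f2 e) ∧ z ∈ N e) : Pl G := by
  classical
  let R : Sym2 V → Set (Fin (m + 1) × Fin (m + 1)) := fun e =>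
    {z | ∃ z0 ∈ B (f1 e), ReflTransGen (fun x y => adj x y ∧ y ∈ N e ∧ y ∉ B (f2 e)) z0 z}
  let L : V → Set (Fin (m + 1) × Fin (m + 1)) := fun u =>
    {z | z ∈ B u ∨ ∃ e ∈ G.edgeSet, f1 e = u ∧ z ∈ R e}
  have hR : ∀ e z, z ∈ R e → z ∈ B (f1 e) ∨ (z ∈ N e ∧ z ∉ B (f2 e)) := by
    rintro e z ⟨z0, hz0, h⟩
    rcases h.cases_tail with rfl | ⟨c, -, hc⟩
    · exact Or.inl hz0
    · exact Or.inr hc.2
  have hL : ∀ u z, z ∈ L u → z ∈ B u ∨ ∃ e ∈ G.edgeSet, f1 e = u ∧ z ∈ N e ∧ z ∉ B (f2 e) := by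
    rintro u z (h | ⟨e, he, rfl, h⟩)
    · exact Or.inl h
    · exact (hR e z h).imp id fun h => ⟨e, he, rfl, h⟩
  have hLL : ∀ u v z, z ∈ L u → z ∈ L v → u = v := by
    intro u v z hu hv
    rcases hL u z hu with a | ⟨e, he, rfl, a, a'⟩
    · rcases hL v z hv with b | ⟨f, hf', rfl, b, b'⟩
      · exact hBB u v z a b
      · exact (hBN f hf' u z a b).resolve_right fun c => b' (c ▸ a)
    · rcases hL v z hv with b | ⟨f, hf', rfl, b, b'⟩
      · exact ((hBN e he v z b a).resolve_right fun c => a' (c ▸ b)).symm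
      · rw [hNN e he f hf' z a b]
  let β : Fin (m + 1) × Fin (m + 1) → Option V := fun z =>
    if h : ∃ u, z ∈ L u then some h.choose else none
  have hβ : ∀ z u, β z = some u ↔ z ∈ L u := by
    intro z u
    constructor
    · intro h
      by_cases c : ∃ u, z ∈ L u
      · have e : β z = some c.choose := dif_pos c
        rw [← Option.some.inj (e.symm.trans h)]
        exact c.choose_spec
      · have e : β z = none := dif_neg c
        rw [e] at h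
        exact absurd h (by simp)
    · intro h
      have c : ∃ u, z ∈ L u := ⟨u, h⟩
      have e : β z = some c.choose := dif_pos c
      rw [e, hLL _ _ z c.choose_spec h]
  have hne : ∀ e ∈ G.edgeSet, f1 e ≠ f2 e := by
    intro e he
    rw [hf e] at he
    exact G.ne_of_adj he
  have edge : ∀ e ∈ G.edgeSet, ∃ z w, adj z w ∧ z ∈ L (f1 e) ∧ w ∈ L (f2 e) := by
    intro e he
    obtain ⟨a, ha, ha'⟩ := h1 e he
    obtain ⟨b, hb, hb'⟩ := h2 e he
    have key : ∀ c, ReflTransGen (fun x y => adj x y ∧ y ∈ N e) a c →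
        c ∈ R e ∨ ∃ z w, adj z w ∧ z ∈ L (f1 e) ∧ w ∈ L (f2 e) := by
      intro c hc
      induction hc with
      | refl => exact Or.inl ⟨a, ha, ReflTransGen.refl⟩
      | @tail x y _ hxy ih =>
        rcases ih with ih | ih
        · by_cases hy : y ∈ B (f2 e)
          · exact Or.inr ⟨x, y, hxy.1, Or.inr ⟨e, he, rfl, ih⟩, Or.inl hy⟩
          · obtain ⟨z0, hz0, h⟩ := ih
            exact Or.inl ⟨z0, hz0, h.tail ⟨hxy.1, hxy.2, hy⟩⟩
        · exact Or.inr ih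
    rcases key b (hN e he a ha' b hb') with h | h
    · rcases hR e b h with h | h
      · exact absurd (hBB _ _ b h hb) (hne e he)
      · exact absurd hb h.2
    · exact h
  have adj_symm : ∀ z w : Fin (m + 1) × Fin (m + 1), adj z w → adj w z := by
    rintro z w (h | h | h | h)
    · exact Or.inr (Or.inr (Or.inl ⟨h.1, h.2.symm⟩))
    · exact Or.inr (Or.inr (Or.inr ⟨h.1.symm, h.2⟩))
    · exact Or.inl ⟨h.1, h.2.symm⟩
    · exact Or.inr (Or.inl ⟨h.1.symm, h.2⟩)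
  refine grid_minor m β (fun z w v hz hw => ?_) G (fun u v huv => ?_)
  · have c1 : ∀ x ∈ B v, ∀ y ∈ B v,
        EqvGen (fun x y => β x = some v ∧ β y = some v ∧ adj x y) x y := by
      intro x hx y hy
      have key : ∀ c, ReflTransGen (fun x y => adj x y ∧ y ∈ B v) x c → c ∈ B v ∧
          EqvGen (fun x y => β x = some v ∧ β y = some v ∧ adj x y) x c := by
        intro c hc
        induction hc with
        | refl => exact ⟨hx, EqvGen.refl _⟩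
        | @tail a b _ hab ih =>
          exact ⟨hab.2, ih.2.trans _ _ _ (EqvGen.rel _ _
            ⟨(hβ _ _).2 (Or.inl ih.1), (hβ _ _).2 (Or.inl hab.2), hab.1⟩)⟩
      exact (key y (hB v x hx y hy)).2
    have c2 : ∀ y ∈ L v, ∃ x ∈ B v,
        EqvGen (fun x y => β x = some v ∧ β y = some v ∧ adj x y) x y := by
      rintro y (h | ⟨e, he, rfl, x, hx, h⟩)
      · exact ⟨y, h, EqvGen.refl _⟩
      · refine ⟨x, hx, ?_⟩
        clear hz hw
        induction h with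
        | refl => exact EqvGen.refl _
        | @tail a b ha hab ih =>
          exact ih.trans _ _ _ (EqvGen.rel _ _ ⟨(hβ _ _).2 (Or.inr ⟨e, he, rfl, x, hx, ha⟩),
            (hβ _ _).2 (Or.inr ⟨e, he, rfl, x, hx, ha.tail hab⟩), hab.1⟩)
    obtain ⟨x, hx, h⟩ := c2 z ((hβ _ _).1 hz)
    obtain ⟨y, hy, h'⟩ := c2 w ((hβ _ _).1 hw)
    exact ((h.symm _ _).trans _ _ _ (c1 x hx y hy)).trans _ _ _ h'
  · obtain ⟨z, w, h, hz, hw⟩ := edge s(u, v) huv
    rcases Sym2.eq_iff.1 (hf s(u, v)) with ⟨a, b⟩ | ⟨a, b⟩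
    · exact ⟨z, w, h, (hβ _ _).2 (a ▸ hz), (hβ _ _).2 (b ▸ hw)⟩
    · exact ⟨w, z, adj_symm _ _ h, (hβ _ _).2 (a ▸ hw), (hβ _ _).2 (b ▸ hz)⟩

/-- finitely many compact sets can be scaled into a grid so that disjoint ones are far apart -/
theorem exists_scale {I : Type*} [Finite I] (P : I → Set (ℝ × ℝ)) (hP : ∀ i, IsCompact (P i)) :
    ∃ (m : ℕ) (φ : ℝ × ℝ → ℝ × ℝ), Continuous φ ∧ (∀ i, φ '' P i ⊆ box m) ∧
      ∀ i j z, z ∈ NB m (φ '' P i) → z ∈ NB m (φ '' P j) → ¬ Disjoint (P i) (P j) := by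
  classical
  have h1 : ∀ i j : I, ∃ r : ℝ, 0 < r ∧
      (Disjoint (P i) (P j) → ∀ x ∈ P i, ∀ y ∈ P j, r ≤ dist x y) := by
    intro i j
    by_cases h : Disjoint (P i) (P j)
    · obtain ⟨r, hr, h'⟩ := Metric.exists_pos_forall_lt_edist (hP i) (hP j).isClosed h
      refine ⟨r, hr, fun _ x hx y hy => ?_⟩
      have := h' x hx y hy
      rw [edist_nndist, ENNReal.coe_lt_coe] at this
      exact (NNReal.coe_lt_coe.2 this).le
    · exact ⟨1, one_pos, fun c => absurd c h⟩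
  choose r hr0 hr using h1
  obtain ⟨δ, hδ, hδ'⟩ : ∃ δ : ℝ, 0 < δ ∧ ∀ i j, δ ≤ r i j := by
    rcases isEmpty_or_nonempty I with h | h
    · exact ⟨1, one_pos, fun i => h.elim i⟩
    · obtain ⟨s, hs⟩ := Finite.exists_min fun s : I × I => r s.1 s.2
      exact ⟨r s.1 s.2, hr0 _ _, fun i j => hs (i, j)⟩
  obtain ⟨R, hR⟩ := (isCompact_iUnion hP).isBounded.subset_closedBall 0
  obtain ⟨n, hn⟩ := exists_nat_ge (2 / δ * R)
  have hc : 0 < 2 / δ := by positivity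
  refine ⟨2 * n, fun q => (2 / δ * q.1 + n, 2 / δ * q.2 + n), by fun_prop, ?_, ?_⟩
  · rintro i _ ⟨q, hq, rfl⟩
    have h := hR (mem_iUnion.2 ⟨i, hq⟩)
    rw [Metric.mem_closedBall, Prod.dist_eq, max_le_iff, Real.dist_eq, Real.dist_eq, abs_le,
      abs_le] at h
    simp only [Prod.fst_zero, Prod.snd_zero, sub_zero] at h
    obtain ⟨⟨a, b⟩, c, d⟩ := h
    have a' := mul_le_mul_of_nonneg_left a hc.le
    have b' := mul_le_mul_of_nonneg_left b hc.le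
    have c' := mul_le_mul_of_nonneg_left c hc.le
    have d' := mul_le_mul_of_nonneg_left d hc.le
    refine ⟨?_, ?_, ?_, ?_⟩ <;> dsimp only <;> push_cast <;> linarith
  · rintro i j z ⟨_, ⟨a, ha, rfl⟩, hz⟩ ⟨_, ⟨b, hb, rfl⟩, hz'⟩ hd
    have h := near_dist hz hz'
    have h' := (hδ' i j).trans (hr i j hd a ha b hb)
    rw [Prod.dist_eq, max_lt_iff, Real.dist_eq, Real.dist_eq] at h
    dsimp only at h
    rw [add_sub_add_right_eq_sub, add_sub_add_right_eq_sub, ← mul_sub, ← mul_sub, abs_mul,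
      abs_mul, abs_of_pos hc] at h
    have e : 2 / δ * δ = 2 := by field_simp
    rw [Prod.dist_eq, le_max_iff, Real.dist_eq, Real.dist_eq] at h'
    rcases h' with h' | h'
    · have := mul_le_mul_of_nonneg_left h' hc.le
      linarith [h.1]
    · have := mul_le_mul_of_nonneg_left h' hc.le
      linarith [h.2]

theorem pl_of_planar {V : Type*} [Fintype V] {G : SimpleGraph V} (h : Planar G) : Pl G := by
  classical
  obtain ⟨p, arc, hp, hγ, hv, hd⟩ := h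
  have hout : ∀ e : Sym2 V, ∃ a b, e = s(a, b) := fun e => Sym2.ind (fun a b => ⟨a, b, rfl⟩) e
  choose f1 f2 hf using hout
  have hg : ∀ e : Sym2 V, ∃ g : ℝ → ℝ × ℝ, Continuous g ∧ (e ∈ G.edgeSet →
      InjOn g (Icc 0 1) ∧ g 0 = p (f1 e) ∧ g 1 = p (f2 e) ∧ ∀ t, g t ∈ arc e) := by
    intro e
    by_cases he : e ∈ G.edgeSet
    · have he' : G.Adj (f1 e) (f2 e) := by
        rw [hf e] at he
        exact he
      obtain ⟨γ, h1, h2⟩ := hγ _ _ he'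
      refine ⟨γ.extend, γ.continuous_extend, fun _ => ⟨fun s hs t ht hst => ?_, γ.extend_zero,
        γ.extend_one, fun t => ?_⟩⟩
      · rw [γ.extend_apply hs, γ.extend_apply ht] at hst
        exact congrArg Subtype.val (h1 hst)
      · rw [← hf e] at h2
        rw [← h2, ← γ.extend_range]
        exact mem_range_self t
    · exact ⟨fun _ => 0, continuous_const, fun c => absurd c he⟩
  choose g gc hg using hg
  have D0 : ∀ e ∈ G.edgeSet, ∀ t ∈ Icc (0 : ℝ) 1, ∀ w, g e t = p w →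
      (t = 0 ∧ w = f1 e) ∨ (t = 1 ∧ w = f2 e) := by
    intro e he t ht w h
    obtain ⟨a, b, c, d⟩ := hg e he
    have hw := hv e he w (h ▸ d t)
    rw [hf e, Sym2.mem_iff] at hw
    rcases hw with rfl | rfl
    · exact Or.inl ⟨a ht ⟨le_rfl, zero_le_one⟩ (h.trans b.symm), rfl⟩
    · exact Or.inr ⟨a ht ⟨zero_le_one, le_rfl⟩ (h.trans c.symm), rfl⟩
  have D1 : ∀ e ∈ G.edgeSet, ∀ f ∈ G.edgeSet, ∀ t s, g e t = g f s →
      e = f ∨ ∃ w, g e t = p w := by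
    intro e he f hf' t s h
    by_cases c : e = f
    · exact Or.inl c
    · obtain ⟨w, hw⟩ := hd e he f hf' c ⟨(hg e he).2.2.2 t, h ▸ (hg f hf').2.2.2 s⟩
      exact Or.inr ⟨w, hw.symm⟩
  let K : V → Set (ℝ × ℝ) := fun v => {p v} ∪
    ((⋃ e ∈ {e | e ∈ G.edgeSet ∧ f1 e = v}, g e '' Icc 0 (1 / 3)) ∪
      ⋃ e ∈ {e | e ∈ G.edgeSet ∧ f2 e = v}, g e '' Icc (2 / 3) 1)
  let M : Sym2 V → Set (ℝ × ℝ) := fun e => g e '' Icc (1 / 3) (2 / 3)
  have hK : ∀ v q, q ∈ K v ↔ q = p v ∨ ∃ e ∈ G.edgeSet, ∃ t, g e t = q ∧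
      ((f1 e = v ∧ t ∈ Icc (0 : ℝ) (1 / 3)) ∨ (f2 e = v ∧ t ∈ Icc (2 / 3 : ℝ) 1)) := by
    intro v q
    simp only [K, mem_union, mem_singleton_iff, mem_iUnion, mem_setOf_eq, mem_image, exists_prop]
    constructor
    · rintro (h | ⟨e, ⟨he, h1⟩, t, ht, h⟩ | ⟨e, ⟨he, h1⟩, t, ht, h⟩)
      · exact Or.inl h
      · exact Or.inr ⟨e, he, t, h, Or.inl ⟨h1, ht⟩⟩
      · exact Or.inr ⟨e, he, t, h, Or.inr ⟨h1, ht⟩⟩
    · rintro (h | ⟨e, he, t, h, ⟨h1, ht⟩ | ⟨h1, ht⟩⟩)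
      · exact Or.inl h
      · exact Or.inr (Or.inl ⟨e, ⟨he, h1⟩, t, ht, h⟩)
      · exact Or.inr (Or.inr ⟨e, ⟨he, h1⟩, t, ht, h⟩)
  have Kp : ∀ v w, p w ∈ K v → w = v := by
    intro v w h
    rcases (hK v _).1 h with h | ⟨e, he, t, h, ⟨h1, ht⟩ | ⟨h1, ht⟩⟩
    · exact hp h
    · rcases D0 e he t ⟨ht.1, by linarith [ht.2]⟩ w h with ⟨-, a⟩ | ⟨a, -⟩
      · exact a.trans h1
      · exact absurd ht.2 (by rw [a]; norm_num)
    · rcases D0 e he t ⟨by linarith [ht.1], ht.2⟩ w h with ⟨a, -⟩ | ⟨-, a⟩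
      · exact absurd ht.1 (by rw [a]; norm_num)
      · exact a.trans h1
  have Mp : ∀ e ∈ G.edgeSet, ∀ t ∈ Icc (1 / 3 : ℝ) (2 / 3), ∀ w, g e t ≠ p w := by
    intro e he t ht w h
    rcases D0 e he t ⟨by linarith [ht.1], by linarith [ht.2]⟩ w h with ⟨a, -⟩ | ⟨a, -⟩
    · exact absurd ht.1 (by rw [a]; norm_num)
    · exact absurd ht.2 (by rw [a]; norm_num)
  have KK : ∀ u v q, q ∈ K u → q ∈ K v → u = v := by
    intro u v q hu hv'
    by_cases c : ∃ w, q = p w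
    · obtain ⟨w, rfl⟩ := c
      exact (Kp u w hu).symm.trans (Kp v w hv')
    · rcases (hK u _).1 hu with h | ⟨e, he, t, h, a⟩
      · exact absurd ⟨u, h⟩ c
      rcases (hK v _).1 hv' with h' | ⟨f, hf', s, h', b⟩
      · exact absurd ⟨v, h'⟩ c
      rcases D1 e he f hf' t s (h.trans h'.symm) with rfl | ⟨w, hw⟩
      · have ht : t ∈ Icc (0 : ℝ) 1 := by
          rcases a with ⟨-, a⟩ | ⟨-, a⟩ <;> exact ⟨by linarith [a.1], by linarith [a.2]⟩
        have hs : s ∈ Icc (0 : ℝ) 1 := by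
          rcases b with ⟨-, b⟩ | ⟨-, b⟩ <;> exact ⟨by linarith [b.1], by linarith [b.2]⟩
        obtain rfl := (hg e he).1 ht hs (h.trans h'.symm)
        rcases a with ⟨a, a'⟩ | ⟨a, a'⟩ <;> rcases b with ⟨b, b'⟩ | ⟨b, b'⟩
        · exact a.symm.trans b
        · exact absurd (b'.1.trans a'.2) (by norm_num)
        · exact absurd (a'.1.trans b'.2) (by norm_num)
        · exact a.symm.trans b
      · exact absurd ⟨w, h.symm.trans hw⟩ c
  have KM : ∀ e ∈ G.edgeSet, ∀ v q, q ∈ K v → q ∈ M e → v = f1 e ∨ v = f2 e := by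
    rintro e he v _ hq ⟨t, ht, rfl⟩
    rcases (hK v _).1 hq with h | ⟨f, hf', s, h, a⟩
    · exact absurd h (Mp e he t ht v)
    · rcases D1 e he f hf' t s h.symm with rfl | ⟨w, hw⟩
      · exact a.imp (fun a => a.1.symm) fun a => a.1.symm
      · exact absurd hw (Mp e he t ht w)
  have MM : ∀ e ∈ G.edgeSet, ∀ f ∈ G.edgeSet, ∀ q, q ∈ M e → q ∈ M f → e = f := by
    rintro e he f hf' _ ⟨t, ht, rfl⟩ ⟨s, -, h⟩
    exact (D1 e he f hf' t s h.symm).resolve_right fun ⟨w, hw⟩ => Mp e he t ht w hw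
  have Kc : ∀ v, IsCompact (K v) := fun v => isCompact_singleton.union
    (((toFinite _).isCompact_biUnion fun e _ => isCompact_Icc.image (gc e)).union
      ((toFinite _).isCompact_biUnion fun e _ => isCompact_Icc.image (gc e)))
  have Kn : ∀ v, IsPreconnected (K v) := by
    intro v
    refine isPreconnected_of_forall (p v) fun q hq => ?_
    rcases (hK v _).1 hq with rfl | ⟨e, he, t, rfl, ⟨rfl, ht⟩ | ⟨rfl, ht⟩⟩
    · exact ⟨{p v}, singleton_subset_iff.2 hq, rfl, rfl, isPreconnected_singleton⟩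
    · refine ⟨g e '' Icc 0 (1 / 3), ?_, ⟨0, ⟨le_rfl, by norm_num⟩, (hg e he).2.1⟩, ⟨t, ht, rfl⟩,
        isPreconnected_Icc.image _ (gc e).continuousOn⟩
      rintro _ ⟨s, hs, rfl⟩
      exact (hK _ _).2 (Or.inr ⟨e, he, s, rfl, Or.inl ⟨rfl, hs⟩⟩)
    · refine ⟨g e '' Icc (2 / 3) 1, ?_, ⟨1, ⟨by norm_num, le_rfl⟩, (hg e he).2.2.1⟩, ⟨t, ht, rfl⟩,
        isPreconnected_Icc.image _ (gc e).continuousOn⟩
      rintro _ ⟨s, hs, rfl⟩
      exact (hK _ _).2 (Or.inr ⟨e, he, s, rfl, Or.inr ⟨rfl, hs⟩⟩)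
  obtain ⟨m, φ, hφ, hb, hfar⟩ := exists_scale (Sum.elim K M : V ⊕ Sym2 V → Set (ℝ × ℝ)) (by
    rintro (v | e)
    · exact Kc v
    · exact isCompact_Icc.image (gc e))
  have meet : ∀ v e q, q ∈ K v → q ∈ M e →
      ∃ z, z ∈ NB m (φ '' K v) ∧ z ∈ NB m (φ '' M e) := by
    intro v e q h1 h2
    obtain ⟨z, hz⟩ := near_exists (hb (Sum.inl v) ⟨q, h1, rfl⟩)
    exact ⟨z, ⟨_, ⟨q, h1, rfl⟩, hz⟩, ⟨_, ⟨q, h2, rfl⟩, hz⟩⟩
  refine pl_of_regions G m (fun v => NB m (φ '' K v)) (fun e => NB m (φ '' M e)) f1 f2 hf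
    (fun v z hz w hw => NB_conn ((Kn v).image _ hφ.continuousOn) (hb (Sum.inl v)) hz hw)
    (fun e _ z hz w hw => NB_conn ((isPreconnected_Icc.image _ (gc e).continuousOn).image _
      hφ.continuousOn) (hb (Sum.inr e)) hz hw)
    (fun u v z hu hv' => ?_) (fun e he v z h1 h2 => ?_) (fun e he f hf' z h1 h2 => ?_)
    (fun e he => meet _ e (g e (1 / 3)) ?_ ⟨1 / 3, ⟨le_rfl, by norm_num⟩, rfl⟩)
    (fun e he => meet _ e (g e (2 / 3)) ?_ ⟨2 / 3, ⟨by norm_num, le_rfl⟩, rfl⟩)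
  · obtain ⟨q, a, b⟩ := not_disjoint_iff.1 (hfar (Sum.inl u) (Sum.inl v) z hu hv')
    exact KK u v q a b
  · obtain ⟨q, a, b⟩ := not_disjoint_iff.1 (hfar (Sum.inl v) (Sum.inr e) z h1 h2)
    exact KM e he v q a b
  · obtain ⟨q, a, b⟩ := not_disjoint_iff.1 (hfar (Sum.inr e) (Sum.inr f) z h1 h2)
    exact MM e he f hf' q a b
  · exact (hK _ _).2 (Or.inr ⟨e, he, 1 / 3, rfl, Or.inl ⟨rfl, by norm_num, le_rfl⟩⟩)
  · exact (hK _ _).2 (Or.inr ⟨e, he, 2 / 3, rfl, Or.inr ⟨rfl, le_rfl, by norm_num⟩⟩)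

/-- a graph drawn in the plane has a rotation system satisfying Euler's formula -/
theorem isPlanar_of_planar {V : Type*} [Fintype V] {G : SimpleGraph V} (h : Planar G) :
    IsPlanar G := isPlanar_of_pl (pl_of_planar h)

end Pool.Agent.Lib.TopPl
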