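import Mathlib

set_option autoImplicit false

namespace Pool.Agent.Lib.TopPl

/-- A graph is planar if it can be drawn in the plane: the vertices are distinct points, every edge
is a simple arc joining its two ends and containing no other vertex, and the arcs of two different
edges have no common point other than a vertex. -/
def Planar {V : Type*} (G : SimpleGraph V) : Prop :=
  ∃ (p : V → ℝ × ℝ) (arc : Sym2 V → Set (ℝ × ℝ)), Function.Injective p ∧
    (∀ u v, G.Adj u v →
      ∃ γ : Path (p u) (p v), Function.Injective γ ∧ Set.range γ = arc s(u, v)) ∧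
    (∀ e ∈ G.edgeSet, ∀ w, p w ∈ arc e → w ∈ e) ∧
    ∀ e ∈ G.edgeSet, ∀ f ∈ G.edgeSet, e ≠ f → arc e ∩ arc f ⊆ Set.range p

end Pool.Agent.Lib.TopPl
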